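import Pool.Agent.H.MP_53fdf7_co.D

set_option autoImplicit false

namespace Pool.Agent.H.MP_993768_co

open Pool.Agent.H.MP_53fdf7_co

/-- an abstract `n`-polytope -/
structure Pt (n : ℕ) : Type 1 where
  C : Type
  [po : PartialOrder C]
  rk : C → ℤ
  poly : Poly C n rk

attribute [instance] Pt.po

/-- all facets of `R` are isomorphic to `P` and all vertex-figures to `Q` -/
def Amalg (P Q : Pt 3) (R : Pt 4) : Prop :=
  (∀ F, R.rk F = 3 → Nonempty (Set.Iic F ≃o P.C)) ∧ ∀ v, R.rk v = 0 → Nonempty (Set.Ici v ≃o Q.C)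

/-- the facet-restriction of a flag lies in the orbit of `φ` iff its
vertex-figure-restriction lies in the orbit of `ψ` -/
def Rooted (P Q : Pt 3) (φ : Flag P.C) (ψ : Flag Q.C) (R : Pt 4) : Prop :=
  ∀ (Φ : Flag R.C) (v F : R.C), v ∈ Φ → F ∈ Φ → R.rk v = 0 → R.rk F = 3 →
    ((∃ e : Set.Iic F ≃o P.C, ∀ x, x.1 ∈ Φ ↔ e x ∈ φ) ↔
      ∃ e : Set.Ici v ≃o Q.C, ∀ x, x.1 ∈ Φ ↔ e x ∈ ψ)

/-- a rank- and order-preserving surjection sending adjacent flags to adjacent flags -/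
def Covers (U R : Pt 4) : Prop :=
  ∃ f : U.C → R.C, Function.Surjective f ∧ Monotone f ∧ (∀ x, R.rk (f x) = U.rk x) ∧
    ∀ Φ Ψ : Flag U.C, (∃! F, F ∈ Φ ∧ F ∉ Ψ) → ∃! G, G ∈ f '' Φ ∧ G ∉ f '' Ψ

end Pool.Agent.H.MP_993768_co
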