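import Pool.Agent.H.MP_53fdf7_co.A
import Pool.Agent.H.MP_993768_co.D

set_option autoImplicit false

namespace Pool.Agent.H.MP_993768_co

open Pool.Agent.H.MP_53fdf7_co Function Set Relation

section gen
variable {U : Type} [PartialOrder U] {n : ℕ} {rk : U → ℤ}

structure Pre (U : Type) [PartialOrder U] (n : ℕ) (rk : U → ℤ) : Prop where
  mono : StrictMono rk
  lo : ∀ a, -1 ≤ rk a
  hi : ∀ a, rk a ≤ n
  ex : ∀ (Φ : Flag U) (i : ℤ), -1 ≤ i → i ≤ n → ∃ F, F ∈ Φ ∧ rk F = i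

theorem pre_of (h : Poly U n rk) : Pre U n rk :=
  ⟨h.mono, h.lo, h.hi, fun Φ i a b => (h.flag Φ i a b).exists⟩

theorem pre_mk {b t : U} (h : StrictMono rk) (hb : IsBot b) (rb : rk b = -1) (ht : IsTop t)
    (rt : rk t = n) (g : ∀ x z, x < z → rk x + 1 < rk z → ∃ y, x < y ∧ y < z) : Pre U n rk := by
  have lo : ∀ a, -1 ≤ rk a := fun a => rb ▸ h.monotone (hb a)
  have hi : ∀ a, rk a ≤ n := fun a => rt ▸ h.monotone (ht a)
  refine ⟨h, lo, hi, fun Φ i i1 i2 => ?_⟩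
  obtain ⟨_, ⟨x, x1, x2, rfl⟩, hx⟩ := Int.exists_greatest_of_bdd
    (P := fun k => ∃ x ∈ Φ, rk x ≤ i ∧ rk x = k) ⟨i, by rintro _ ⟨x, -, h, rfl⟩; exact h⟩
    ⟨_, b, mem_of_bot hb Φ, by omega, rfl⟩
  obtain ⟨_, ⟨z, z1, z2, rfl⟩, hz⟩ := Int.exists_least_of_bdd
    (P := fun k => ∃ x ∈ Φ, i ≤ rk x ∧ rk x = k) ⟨i, by rintro _ ⟨x, -, h, rfl⟩; exact h⟩
    ⟨_, t, mem_of_top ht Φ, by omega, rfl⟩
  by_contra c
  have c1 : rk x ≠ i := fun e => c ⟨x, x1, e⟩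
  have c2 : rk z ≠ i := fun e => c ⟨z, z1, e⟩
  obtain ⟨y, y1, y2⟩ := g x z ((le_of_rk h x1 z1 (by omega)).lt_of_ne (by rintro rfl; omega))
    (by omega)
  have m : y ∈ Φ := Flag.mem_iff_forall_le_or_ge.2 fun w hw => by
    rcases le_total (rk w) i with q | q
    · exact Or.inr ((le_of_rk h hw x1 (hx _ ⟨w, hw, q, rfl⟩)).trans y1.le)
    · exact Or.inl (y2.le.trans (le_of_rk h z1 hw (hz _ ⟨w, hw, q, rfl⟩)))
  have := h y1
  have := h y2
  rcases le_total (rk y) i with q | q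
  · have := hx _ ⟨y, m, q, rfl⟩; omega
  · have := hz _ ⟨y, m, q, rfl⟩; omega

def Tu (n : ℕ) (rk : U → ℤ) (t : ℕ → U) : Prop :=
  (∀ j ≤ n, t j < t (j + 1)) ∧ ∀ j ≤ n + 1, rk (t j) = j - 1

def Is (n : ℕ) (Φ : Flag U) (t : ℕ → U) : Prop := ∀ F, F ∈ Φ ↔ ∃ j ≤ n + 1, F = t j

theorem Pre.tu (h : Pre U n rk) (Φ : Flag U) : ∃ t, Tu n rk t ∧ Is n Φ t := by
  have : ∀ j : ℕ, ∃ F, j ≤ n + 1 → F ∈ Φ ∧ rk F = j - 1 := fun j => by
    by_cases e : j ≤ n + 1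
    · obtain ⟨F, a⟩ := h.ex Φ (j - 1) (by omega) (by omega)
      exact ⟨F, fun _ => a⟩
    · obtain ⟨F, -⟩ := h.ex Φ (-1) le_rfl (by omega)
      exact ⟨F, fun a => absurd a e⟩
  choose t ht using this
  refine ⟨t, ⟨fun j hj => ?_, fun j hj => (ht j hj).2⟩, fun F => ⟨fun a => ?_, ?_⟩⟩
  · obtain ⟨a, b⟩ := ht j (by omega)
    obtain ⟨c, d⟩ := ht (j + 1) (by omega)
    exact (le_of_rk h.mono a c (by omega)).lt_of_ne fun e => by rw [e] at b; omega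
  · have := h.lo F
    have := h.hi F
    obtain ⟨c, d⟩ := ht (rk F + 1).toNat (by omega)
    exact ⟨_, by omega, (le_of_rk h.mono a c (by omega)).antisymm (le_of_rk h.mono c a (by omega))⟩
  · rintro ⟨j, hj, rfl⟩
    exact (ht j hj).1

theorem Tu.le {t : ℕ → U} (h : Tu n rk t) {i j : ℕ} (a : i ≤ j) (b : j ≤ n + 1) : t i ≤ t j := by
  induction j, a using Nat.le_induction with
  | base => rfl
  | succ j _ ih => exact (ih (by omega)).trans (h.1 j (by omega)).le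

theorem Pre.fl (h : Pre U n rk) {t : ℕ → U} (ht : Tu n rk t) : ∃ Φ, Is n Φ t := by
  obtain ⟨Φ, hΦ⟩ := IsChain.exists_subset_flag (c := {F | ∃ j ≤ n + 1, F = t j}) (by
    rintro _ ⟨i, a, rfl⟩ _ ⟨j, b, rfl⟩ -
    exact (le_total i j).imp (fun q => ht.le q b) fun q => ht.le q a)
  refine ⟨Φ, fun F => ⟨fun a => ?_, fun a => hΦ a⟩⟩
  have := h.lo F
  have := h.hi F
  have c : t (rk F + 1).toNat ∈ Φ := hΦ ⟨_, by omega, rfl⟩
  have d := ht.2 (rk F + 1).toNat (by omega)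
  exact ⟨_, by omega, (le_of_rk h.mono a c (by omega)).antisymm (le_of_rk h.mono c a (by omega))⟩

theorem Is.at {Φ : Flag U} {t : ℕ → U} (h : Is n Φ t) (ht : Tu n rk t) {F : U} (a : F ∈ Φ) (j : ℕ)
    (r : rk F = j - 1) : F = t j := by
  obtain ⟨i, b, rfl⟩ := (h F).1 a
  have := ht.2 i b
  rw [show i = j by omega]

theorem Is.adj {Φ Ψ : Flag U} {t s : ℕ → U} (h : Is n Φ t) (k : Is n Ψ s) (ht : Tu n rk t)
    (hs : Tu n rk s) {i : ℕ} (hi : i ≤ n + 1) (a : s i ≠ t i) (b : ∀ j ≤ n + 1, j ≠ i → s j = t j) :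
    ∃! F, F ∈ Φ ∧ F ∉ Ψ := by
  refine ⟨t i, ⟨(h _).2 ⟨i, hi, rfl⟩, fun q => a (k.at hs q i (ht.2 i hi)).symm⟩, ?_⟩
  rintro F ⟨f1, f2⟩
  obtain ⟨j, hj, rfl⟩ := (h F).1 f1
  by_contra c
  exact f2 ((k _).2 ⟨j, hj, (b j hj fun e => c (by rw [e])).symm⟩)

open Classical in
noncomputable def nx (t : ℕ → U) (i : ℕ) : ℕ → U :=
  update t i (if h : ∃ y, y ≠ t i ∧ t (i - 1) < y ∧ y < t (i + 1) then h.choose else t i)

theorem nx_ne (t : ℕ → U) {i j : ℕ} (h : j ≠ i) : nx t i j = t j := update_of_ne h _ _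

theorem nx_spec (h : Poly U n rk) {t : ℕ → U} (ht : Tu n rk t) {i : ℕ} (a : 1 ≤ i) (b : i ≤ n) :
    nx t i i ≠ t i ∧ Tu n rk (nx t i) := by
  have l1 : t (i - 1) < t i := by
    have := ht.1 (i - 1) (by omega)
    rwa [Nat.sub_add_cancel a] at this
  have l2 := ht.1 i b
  have r1 := ht.2 (i - 1) (by omega)
  have r2 := ht.2 (i + 1) (by omega)
  have ex : ∃ y, y ≠ t i ∧ t (i - 1) < y ∧ y < t (i + 1) := by
    obtain ⟨x, y, e, q⟩ := encard_eq_two.1 (h.diamond _ _ (l1.trans l2) (by omega))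
    have hx : x ∈ Ioo (t (i - 1)) (t (i + 1)) := by simp [q]
    have hy : y ∈ Ioo (t (i - 1)) (t (i + 1)) := by simp [q]
    by_cases c : x = t i
    · exact ⟨y, fun z => e (c.trans z.symm), hy⟩
    · exact ⟨x, c, hx⟩
  have e : nx t i i = ex.choose := by simp only [nx, update_self, dif_pos ex]
  obtain ⟨s1, s2, s3⟩ := ex.choose_spec
  rw [← e] at s1 s2 s3
  refine ⟨s1, fun j hj => ?_, fun j hj => ?_⟩
  · by_cases c : j = i
    · rw [c, nx_ne t (by omega : i + 1 ≠ i)]; exact s3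
    by_cases d : j + 1 = i
    · rw [nx_ne t c, d, show j = i - 1 by omega]; exact s2
    · rw [nx_ne t c, nx_ne t d]; exact ht.1 j hj
  · by_cases c : j = i
    · have := h.mono s2
      have := h.mono s3
      rw [c]; omega
    · rw [nx_ne t c]; exact ht.2 j hj

theorem act_tu (h : Poly U n rk) : ∀ (w : List ℕ) {t : ℕ → U}, Tu n rk t →
    (∀ i ∈ w, 1 ≤ i ∧ i ≤ n) → Tu n rk (w.foldl nx t)
  | [], _, ht, _ => ht
  | i :: w, _, ht, hw => act_tu h w (nx_spec h ht (hw i (by simp)).1 (hw i (by simp)).2).2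
      fun j hj => hw j (by simp [hj])

theorem act_ne : ∀ (w : List ℕ) (t : ℕ → U) {j : ℕ}, j ∉ w → w.foldl nx t j = t j
  | [], _, _, _ => rfl
  | i :: w, t, j, hj => by
    rw [List.foldl_cons, act_ne w _ fun q => hj (by simp [q]), nx_ne t fun q => hj (by simp [q])]

theorem iso_of {S : Type} [PartialOrder S] (k : S → U) (A : Set U) (h1 : ∀ a b, k a ≤ k b ↔ a ≤ b)
    (h2 : ∀ u, u ∈ A ↔ ∃ a, k a = u) : ∃ e : A ≃o S, ∀ a, (e.symm a).1 = k a :=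
  ⟨(RelIso.ofSurjective (OrderEmbedding.ofMapLEIff (fun a => (⟨k a, (h2 _).2 ⟨a, rfl⟩⟩ : A)) h1)
    fun u => ((h2 _).1 u.2).imp fun _ e => Subtype.ext e).symm, fun _ => rfl⟩
end gen

structure Dt where
  n : ℕ
  N : ℕ
  m : ℕ
  M : ℕ
  FC : ℕ
  RR : ℕ
  RK : ℕ
  PA : ℕ
  RT : ℕ

namespace Dt
variable (d : Dt)

def C : Type := Fin (d.N + 1)
instance : DecidableEq d.C := instDecidableEqFin _
instance (p : d.C → Prop) [DecidablePred p] : Decidable (∀ a, p a) := Nat.decidableForallFin p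
instance (p : d.C → Prop) [DecidablePred p] : Decidable (∃ a, p a) := Nat.decidableExistsFin p
def tb (a b : d.C) : Bool := d.M.testBit ((d.N + 1) * a.1 + b.1)
def el (k : ℕ) : d.C := Fin.ofNat (d.N + 1) k
def fc (a j : ℕ) : d.C := d.el ((d.FC >>> (5 * (6 * a + j))) % 32)
def r (a i : ℕ) : ℕ := (d.RR >>> (7 * (5 * a + i))) % 128
def rk (a : d.C) : ℤ := (((d.RK >>> (3 * a.1)) % 8 : ℕ) : ℤ) - 1
def pa (I a : ℕ) : ℕ := (d.PA >>> (3 * (d.m * (I / 2) + a))) % 8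
def rt (I a : ℕ) : ℕ := (d.RT >>> (7 * (d.m * (I / 2) + a))) % 128
def it (I : ℕ) : ℕ → ℕ → ℕ
  | 0, a => a
  | f + 1, a => if d.pa I a = 0 then a else it I f (d.r a (d.pa I a))
def ag (a b : ℕ) : ℕ := (if d.fc a 1 = d.fc b 1 then 2 else 0) + (if d.fc a 2 = d.fc b 2 then 4 else 0) +
  (if d.fc a 3 = d.fc b 3 then 8 else 0) + if d.fc a 4 = d.fc b 4 then 16 else 0
def cmp : ℕ → ℕ → (d.C → Bool) → List ℕ → Bool
  | 0, _, _, L => !L.isEmpty
  | f + 1, j, p, L => (List.finRange (d.N + 1)).all fun c : d.C =>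
      !((d.RK >>> (3 * c.1)) % 8 == j && p c) || cmp f (j + 1) (d.tb c) (L.filter fun a => d.fc a j = c)

class Ok : Prop where
  irr : ∀ a, d.tb a a = false
  tr : ∀ a b, d.tb a b = true → ∀ c, d.tb b c = true → d.tb a c = true
  mono : ∀ a b, d.tb a b = true → d.rk a < d.rk b
  bot : (∀ a, d.el 0 = a ∨ d.tb (d.el 0) a = true) ∧ d.rk (d.el 0) = -1
  top : (∀ a, a = d.el d.N ∨ d.tb a (d.el d.N) = true) ∧ d.rk (d.el d.N) = d.n
  gr : ∀ x z, d.tb x z = true → d.rk x + 1 < d.rk z → ∃ y, d.tb x y = true ∧ d.tb y z = true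
  tu : ∀ a < d.m, (∀ j ≤ d.n, d.tb (d.fc a j) (d.fc a (j + 1)) = true) ∧
    ∀ j ≤ d.n + 1, d.rk (d.fc a j) = j - 1
  st : ∀ a < d.m, ∀ i ≤ d.n, 1 ≤ i → d.r a i < d.m ∧ d.r (d.r a i) i = a ∧
    d.fc (d.r a i) i ≠ d.fc a i ∧ (∀ j ≤ d.n + 1, j ≠ i → d.fc (d.r a i) j = d.fc a j) ∧
    ∀ h, d.tb (d.fc a (i - 1)) h = true → d.tb h (d.fc a (i + 1)) = true → h ≠ d.fc a i →
      h = d.fc (d.r a i) i
  cm : d.cmp (d.n + 2) 0 (fun _ => true) (List.range d.m) = true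
  p1 : ∀ I < 32, ∀ a < d.m, (d.pa I a ≤ d.n ∧ (d.pa I a = 0 ∨ I.testBit (d.pa I a) = false)) ∧ d.it I 20 a = d.rt I a
  p2 : ∀ a < d.m, ∀ b < d.m, d.rt (d.ag a b) a = d.rt (d.ag a b) b ∧ (d.ag a b = 30 → a = b)
  n4 : d.n ≤ 4 ∧ (d.n = 3 ∨ d.n = 4)

instance [h : d.Ok] : PartialOrder d.C where
  le a b := a = b ∨ d.tb a b = true
  lt a b := d.tb a b = true
  le_refl _ := Or.inl rfl
  le_trans a b c := by
    rintro (rfl | p) (rfl | q)
    exacts [Or.inl rfl, Or.inr q, Or.inr p, Or.inr (h.tr _ _ p _ q)]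
  le_antisymm a b := by
    rintro (rfl | p) (q | q)
    exacts [rfl, rfl, q.symm, by simpa [h.irr] using h.tr _ _ p _ q]
  lt_iff_le_not_ge a b := by
    refine ⟨fun p => ⟨Or.inr p, ?_⟩, ?_⟩
    · rintro (rfl | q)
      · simp [h.irr] at p
      · simpa [h.irr] using h.tr _ _ p _ q
    · rintro ⟨rfl | p, q⟩
      · exact absurd (Or.inl rfl) q
      · exact p

variable {d} [h : d.Ok]

theorem pre : Pre d.C d.n d.rk :=
  pre_mk h.mono h.bot.1 h.bot.2 h.top.1 h.top.2 h.gr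

theorem tu {a : ℕ} (ha : a < d.m) : Tu d.n d.rk (d.fc a) := h.tu a ha

omit h in
theorem cmp_s (s : ℕ → d.C) (hs : ∀ j ≤ d.n, d.tb (s j) (s (j + 1)) = true)
    (hr : ∀ j ≤ d.n + 1, d.rk (s j) = j - 1) :
    ∀ f k p L, f + k = d.n + 2 → (f ≠ 0 → p (s k) = true) → d.cmp f k p L = true →
      ∃ a ∈ L, ∀ j ≤ d.n + 1, k ≤ j → s j = d.fc a j
  | 0, k, p, L, e, _, q => by
    rcases L with _ | ⟨a, L⟩
    · simp [cmp] at q
    · exact ⟨a, by simp, fun j a b => by omega⟩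
  | f + 1, k, p, L, e, hp, q => by
    have q1 := List.all_eq_true.1 q (s k) (List.mem_finRange _)
    have r := hr k (by omega)
    unfold rk at r
    rw [hp (by omega), beq_iff_eq.2 (show (d.RK >>> (3 * (s k).1)) % 8 = k by omega)] at q1
    obtain ⟨a, a1, a2⟩ := cmp_s s hs hr f (k + 1) _ _ (by omega) (fun _ => hs k (by omega)) q1
    obtain ⟨a3, a4⟩ := List.mem_filter.1 a1
    refine ⟨a, a3, fun j b c => ?_⟩
    rcases c.eq_or_lt with rfl | c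
    · exact (of_decide_eq_true a4).symm
    · exact a2 j b c

theorem comp (s : ℕ → d.C) (hs : ∀ j ≤ d.n, s j < s (j + 1)) :
    ∃ a < d.m, ∀ j ≤ d.n + 1, s j = d.fc a j := by
  have k : ∀ i k, i + k ≤ d.n + 1 → d.rk (s i) + k ≤ d.rk (s (i + k)) := fun i k => by
    induction k with
    | zero => simp
    | succ k ih =>
      intro q
      have := ih (by omega)
      have := pre.mono (hs (i + k) (by omega))
      rw [← add_assoc]; omega
  obtain ⟨a, a1, a2⟩ := cmp_s s hs (fun j hj => by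
    have := k 0 j (by omega)
    have := k j (d.n + 1 - j) (by omega)
    have := pre.lo (s 0)
    have := pre.hi (s (j + (d.n + 1 - j)))
    simp only [zero_add] at *
    omega) _ 0 _ _ rfl (fun _ => rfl) h.cm
  exact ⟨a, List.mem_range.1 a1, fun j hj => a2 j hj (by omega)⟩

theorem flag (Φ : Flag d.C) : ∃ a < d.m, Is d.n Φ (d.fc a) := by
  obtain ⟨t, t1, t2⟩ := pre.tu Φ
  obtain ⟨a, a1, a2⟩ := comp t t1.1
  exact ⟨a, a1, fun F => (t2 F).trans (exists_congr fun j => and_congr_right fun q => by rw [a2 j q])⟩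

theorem inj {a b : ℕ} (ha : a < d.m) (hb : b < d.m) (e : ∀ j ≤ d.n + 1, d.fc a j = d.fc b j) :
    a = b := by
  have := h.n4
  exact (h.p2 a ha b hb).2 (by
    simp only [ag, e 1 (by omega), e 2 (by omega), e 3 (by omega), e 4 (by omega), if_true])

omit h in
theorem ag_bit {a b i : ℕ} (i1 : 1 ≤ i) (i2 : i ≤ 4) (e : d.fc a i = d.fc b i) :
    (d.ag a b).testBit i = true ∧ d.ag a b < 32 := by
  unfold ag
  interval_cases i <;> simp only [e, if_true] <;> split_ifs <;> decide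

theorem conn (Φ Ψ : Flag d.C) : ReflTransGen (fun A B : Flag d.C => (∃! F, F ∈ A ∧ F ∉ B) ∧
    (Φ : Set d.C) ∩ (Ψ : Set d.C) ⊆ (B : Set d.C)) Φ Ψ := by
  obtain ⟨a, a1, a2⟩ := flag Φ
  obtain ⟨b, b1, b2⟩ := flag Ψ
  have : ∀ c, ∃ X : Flag d.C, c < d.m → Is d.n X (d.fc c) := fun c => by
    by_cases e : c < d.m
    · exact (pre.fl (tu e)).imp fun _ q _ => q
    · exact ⟨Φ, fun q => absurd q e⟩
  choose X hX using this
  have xa : Φ = X a := SetLike.ext fun F => (a2 F).trans (hX a a1 F).symm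
  have xb : Ψ = X b := SetLike.ext fun F => (b2 F).trans (hX b b1 F).symm
  let J : ℕ → Prop := fun c => c < d.m ∧ ∀ j ≤ d.n + 1, d.fc a j = d.fc b j → d.fc c j = d.fc a j
  let S : ℕ → ℕ → Prop := fun c e => J c ∧ J e ∧ ∃ i, 1 ≤ i ∧ i ≤ d.n ∧ e = d.r c i
  have I32 : d.ag a b < 32 := by unfold ag; split_ifs <;> decide
  have sy : ∀ c e, S c e → S e c := by
    rintro c _ ⟨c1, c2, i, i1, i2, rfl⟩
    exact ⟨c2, c1, i, i1, i2, (h.st c c1.1 i i2 i1).2.1.symm⟩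
  have go : ∀ f c, J c → ReflTransGen S c (d.it (d.ag a b) f c) := fun f => by
    induction f with
    | zero => exact fun c _ => .refl
    | succ f ih =>
      intro c hc
      unfold it
      split_ifs with e
      · exact .refl
      obtain ⟨⟨p1, p2⟩, -⟩ := h.p1 _ I32 c hc.1
      obtain ⟨s1, -, -, s2, -⟩ := h.st c hc.1 _ p1 (by omega)
      have j : J (d.r c (d.pa (d.ag a b) c)) := ⟨s1, fun j j1 j2 => by
        rw [s2 j j1, hc.2 j j1 j2]
        rintro rfl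
        rw [(ag_bit (by omega) (p1.trans h.n4.1) j2).1] at p2
        exact absurd (p2.resolve_left e) (by decide)⟩
      exact (ih _ j).head ⟨hc, j, _, by omega, p1, rfl⟩
  have g1 := go 20 a ⟨a1, fun _ _ _ => rfl⟩
  have g2 := go 20 b ⟨b1, fun _ _ e => e.symm⟩
  rw [(h.p1 _ I32 a a1).2, (h.p2 a a1 b b1).1] at g1
  rw [(h.p1 _ I32 b b1).2] at g2
  have g3 : ReflTransGen S a b := g1.trans (by
    have : ∀ c e, ReflTransGen S c e → ReflTransGen S e c := fun c e q => by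
      induction q with
      | refl => exact .refl
      | tail _ q ih => exact ih.head (sy _ _ q)
    exact this _ _ g2)
  have := ReflTransGen.lift (p := fun A B : Flag d.C => (∃! F, F ∈ A ∧ F ∉ B) ∧
    (Φ : Set d.C) ∩ (Ψ : Set d.C) ⊆ (B : Set d.C)) X ?_ a b g3
  · rw [xa, xb] at this ⊢
    exact this
  rintro c _ ⟨c1, c2, i, i1, i2, rfl⟩
  obtain ⟨s1, -, s3, s2, -⟩ := h.st c c1.1 i i2 i1
  refine ⟨(hX c c1.1).adj (hX _ s1) (tu c1.1) (tu s1) (by omega) s3 s2, fun F hF => ?_⟩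
  obtain ⟨j, j1, rfl⟩ := (a2 F).1 hF.1
  exact (hX _ s1 _).2 ⟨j, j1, (c2.2 j j1 (b2.at (tu b1) hF.2 j ((tu a1).2 j j1))).symm⟩

theorem poly : Poly d.C d.n d.rk where
  mono := h.mono
  bot := ⟨_, h.bot.1, h.bot.2⟩
  top := ⟨_, h.top.1, h.top.2⟩
  flag := fun Φ i a b => by
    obtain ⟨F, f1, f2⟩ := pre.ex Φ i a b
    exact ⟨F, ⟨f1, f2⟩, fun G hG => (le_of_rk pre.mono hG.1 f1 (by rw [hG.2, f2])).antisymm
      (le_of_rk pre.mono f1 hG.1 (by rw [hG.2, f2]))⟩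
  conn := conn
  diamond := fun F G l e => by
    obtain ⟨Φ, f1, f2⟩ := Flag.exists_mem_mem l.le
    obtain ⟨a, a1, a2⟩ := flag Φ
    have := pre.lo F
    have := pre.hi G
    obtain ⟨i, hi⟩ : ∃ i : ℕ, d.rk F + 2 = i := ⟨(d.rk F + 2).toNat, by omega⟩
    obtain ⟨s1, -, s3, s2, s4⟩ := h.st a a1 i (by omega) (by omega)
    rw [a2.at (tu a1) f1 (i - 1) (by omega), a2.at (tu a1) f2 (i + 1) (by omega)]
    have k : ∀ c < d.m, d.fc c (i - 1) < d.fc c i := fun c hc => by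
      have := (tu hc).1 (i - 1) (by omega)
      rwa [Nat.sub_add_cancel (by omega)] at this
    refine encard_eq_two.2 ⟨_, _, s3, Set.ext fun y => ⟨fun q => ?_, ?_⟩⟩
    · by_cases c : y = d.fc a i
      · exact Or.inr c
      · exact Or.inl (s4 y q.1 q.2 c)
    · rintro (rfl | rfl)
      · rw [← s2 (i - 1) (by omega) (by omega), ← s2 (i + 1) (by omega) (by omega)]
        exact ⟨k _ s1, (tu s1).1 i (by omega)⟩
      · exact ⟨k _ a1, (tu a1).1 i (by omega)⟩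

end Dt

end Pool.Agent.H.MP_993768_co
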