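import Pool.Agent.H.MP_993768_co.A

set_option autoImplicit false

namespace Pool.Agent.H.MP_993768_co

open Pool.Agent.H.MP_53fdf7_co Function Set Relation

section sim
variable {U : Type} [PartialOrder U] {n : ℕ} {rk : U → ℤ} {d : Dt} [hd : d.Ok]

def Rel (d : Dt) (g : U → d.C) (A : Set U) (lo : ℕ) (t : ℕ → U) (a : ℕ) : Prop :=
  a < d.m ∧ ∀ j ≤ d.n + 1, t (lo + j) ∈ A ∧ g (t (lo + j)) = d.fc a j

structure Loc (n : ℕ) (rk : U → ℤ) (g : U → d.C) (A : Set U) : Prop where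
  oc : A.OrdConnected
  mo : StrictMonoOn g A
  se : ∀ t i, Tu n rk t → 1 ≤ i → i ≤ n → t i ∈ A → nx t i i ∈ A → g (nx t i i) ≠ g (t i)

variable {g : U → d.C} {A : Set U} {lo : ℕ}

theorem Rel.step (h : Poly U n rk) (l : Loc n rk g A) (w : lo + d.n ≤ n) {t : ℕ → U}
    (ht : Tu n rk t) {a : ℕ} (r : Rel d g A lo t a) {i : ℕ} (i1 : 1 ≤ i) (i2 : i ≤ d.n) :
    Rel d g A lo (nx t (lo + i)) (d.r a i) := by
  obtain ⟨s1, -, -, s2, s4⟩ := hd.st a r.1 i i2 i1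
  obtain ⟨-, q⟩ := nx_spec h ht (i := lo + i) (by omega) (by omega)
  refine ⟨s1, fun j hj => ?_⟩
  by_cases c : j = i
  · subst c
    have l1 := q.1 (lo + (j - 1)) (by omega)
    have l2 := q.1 (lo + j) (by omega)
    rw [nx_ne t (by omega), show lo + (j - 1) + 1 = lo + j by omega] at l1
    rw [nx_ne t (i := lo + j) (j := lo + j + 1) (by omega), add_assoc] at l2
    obtain ⟨a1, a2⟩ := r.2 (j - 1) (by omega)
    obtain ⟨b1, b2⟩ := r.2 (j + 1) (by omega)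
    obtain ⟨c1, c2⟩ := r.2 j hj
    have m := l.oc.out a1 b1 ⟨l1.le, l2.le⟩
    exact ⟨m, s4 _ (a2 ▸ l.mo a1 m l1) (b2 ▸ l.mo m b1 l2)
      (c2 ▸ l.se t _ ht (by omega) (by omega) c1 m)⟩
  · rw [nx_ne t (by omega), s2 j hj c]
    exact r.2 j hj

theorem Rel.word (h : Poly U n rk) (l : Loc n rk g A) (hw : lo + d.n ≤ n) : ∀ (w : List ℕ)
    {t : ℕ → U} {a : ℕ}, Tu n rk t → Rel d g A lo t a → (∀ i ∈ w, 1 ≤ i ∧ i ≤ d.n) →
      Rel d g A lo ((w.map (lo + ·)).foldl nx t) (w.foldl d.r a)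
  | [], _, _, _, r, _ => r
  | i :: w, _, _, ht, r, q => by
    obtain ⟨i1, i2⟩ := q i (by simp)
    exact Rel.word h l hw w (nx_spec h ht (i := lo + i) (by omega) (by omega)).2 (r.step h l hw ht i1 i2)
      fun j hj => q j (by simp [hj])

theorem ex_rel (l : Loc n rk g A) (hw : lo + d.n ≤ n) {t : ℕ → U} (ht : Tu n rk t)
    (m : ∀ j ≤ d.n + 1, t (lo + j) ∈ A) : ∃ a, Rel d g A lo t a := by
  obtain ⟨a, a1, a2⟩ := Dt.comp (fun j => g (t (lo + j))) fun j hj =>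
    l.mo (m j (by omega)) (m (j + 1) (by omega)) (ht.1 (lo + j) (by omega))
  exact ⟨a, a1, fun j hj => ⟨m j hj, a2 j hj⟩⟩

theorem fix {R : Dt} [R.Ok] {f : U → R.C} (h : Poly U n rk) (l : Loc n rk g A) (hw : lo + d.n ≤ n)
    (i : InjOn g A) (k : Loc n rk f univ) (hn : R.n = n) {t : ℕ → U} (ht : Tu n rk t) {a x : ℕ}
    (r : Rel d g A lo t a) (s : Rel R f univ 0 t x) (w : List ℕ) (q : ∀ i ∈ w, 1 ≤ i ∧ i ≤ d.n)
    (e : w.foldl d.r a = a) : (w.map (lo + ·)).foldl R.r x = x := by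
  have r' := r.word h l hw w ht q
  have s' := s.word h k (by omega) (w.map (lo + ·)) ht (fun j hj => by
    obtain ⟨i, a, rfl⟩ := List.mem_map.1 hj
    have := q i a
    omega)
  simp only [zero_add, List.map_id'] at s'
  rw [e] at r'
  refine Dt.inj s'.1 s.1 fun j hj => ?_
  rw [← (s'.2 j hj).2, ← (s.2 j hj).2, zero_add]
  congr 1
  by_cases c : j ∈ w.map (lo + ·)
  · obtain ⟨j, a, rfl⟩ := List.mem_map.1 c
    have := q j a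
    exact i (r'.2 j (by omega)).1 (r.2 j (by omega)).1
      ((r'.2 j (by omega)).2.trans (r.2 j (by omega)).2.symm)
  · exact act_ne _ _ c

open Classical in
noncomputable def ex (e : A ≃o d.C) (u : U) : d.C := if h : u ∈ A then e ⟨u, h⟩ else d.el 0

theorem ex_eq (e : A ≃o d.C) {u : U} (h : u ∈ A) : ex e u = e ⟨u, h⟩ := dif_pos h

theorem ex_inj (e : A ≃o d.C) : InjOn (ex e) A := fun a p b q h => by
  rw [ex_eq e p, ex_eq e q] at h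
  exact congrArg Subtype.val (e.injective h)

theorem ex_loc (h : Poly U n rk) (o : A.OrdConnected) (e : A ≃o d.C) : Loc n rk (ex e) A :=
  ⟨o, fun a p b q h => by rw [ex_eq e p, ex_eq e q]; exact e.strictMono h,
    fun t i ht a b p q c => (nx_spec h ht a b).1 (ex_inj e q p c)⟩

theorem cov_loc (h : Poly U n rk) (f : U → d.C) (m : Monotone f) (r : ∀ x, d.rk (f x) = rk x)
    (c : ∀ Φ Ψ : Flag U, (∃! F, F ∈ Φ ∧ F ∉ Ψ) → ∃! G, G ∈ f '' Φ ∧ G ∉ f '' Ψ) :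
    Loc n rk f univ := by
  refine ⟨ordConnected_univ, fun a _ b _ l => (m l.le).lt_of_ne fun e => ?_,
    fun t i ht a b _ _ e => ?_⟩
  · have := h.mono l
    rw [← r, ← r, e] at this
    exact lt_irrefl _ this
  · obtain ⟨s1, s2⟩ := nx_spec h ht a b
    obtain ⟨Φ, p⟩ := (pre_of h).fl ht
    obtain ⟨Ψ, q⟩ := (pre_of h).fl s2
    obtain ⟨_, ⟨⟨F, f1, rfl⟩, f2⟩, -⟩ := c Φ Ψ (p.adj q ht s2 (by omega) s1 fun j _ c => nx_ne t c)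
    obtain ⟨j, j1, rfl⟩ := (p F).1 f1
    refine f2 ⟨nx t i j, (q _).2 ⟨j, j1, rfl⟩, ?_⟩
    by_cases z : j = i
    · rw [z, e]
    · rw [nx_ne t z]
end sim

def pt (d : Dt) [d.Ok] (k : ℕ) (h : d.n = k) : Pt k := ⟨d.C, d.rk, h ▸ Dt.poly⟩

def Fx (R : Dt) (lo : ℕ) (W : List (List ℕ)) (x : ℕ) : Prop :=
  ∀ w ∈ W, (w.map (lo + ·)).foldl R.r x = x

def Wd (S : Dt) (W : List (List ℕ)) (a : ℕ) : Prop :=
  a < S.m ∧ ∀ w ∈ W, (∀ i ∈ w, 1 ≤ i ∧ i ≤ S.n) ∧ w.foldl S.r a = a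

def kk (S R : Dt) (T x : ℕ) (a : S.C) : R.C := R.el ((T >>> (5 * (18 * x + a.1))) % 32)

def Ce (S R : Dt) (T x a0 : ℕ) (A : R.C → Prop) : Prop :=
  (∀ a b, (kk S R T x a = kk S R T x b ∨ R.tb (kk S R T x a) (kk S R T x b) = true) ↔
    (a = b ∨ S.tb a b = true)) ∧ (∀ u, A u ↔ ∃ a, kk S R T x a = u) ∧
  ∀ a, (∃ j ≤ R.n + 1, kk S R T x a = R.fc x j) ↔ ∃ j ≤ S.n + 1, a = S.fc a0 j

section ra
variable {S R : Dt} [S.Ok] [R.Ok]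

theorem neg {lo a0 x : ℕ} {W : List (List ℕ)} (hW : Wd S W a0) (hx : x < R.m) {A : Set R.C}
    (o : A.OrdConnected) (hw : lo + S.n ≤ R.n) (m : ∀ j ≤ S.n + 1, R.fc x (lo + j) ∈ A)
    {Φ : Flag R.C} {φ : Flag S.C} (p : Is R.n Φ (R.fc x)) (q : Is S.n φ (S.fc a0))
    (e : A ≃o S.C) (he : ∀ u, u.1 ∈ Φ ↔ e u ∈ φ) : Fx R lo W x := by
  have l := ex_loc Dt.poly o e
  obtain ⟨a, r⟩ := ex_rel l hw (Dt.tu hx) m
  obtain rfl : a = a0 := Dt.inj r.1 hW.1 fun j hj => by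
    refine q.at (Dt.tu hW.1) ?_ j ((Dt.tu r.1).2 j hj)
    rw [← (r.2 j hj).2, ex_eq e (m j hj), ← he]
    exact (p _).2 ⟨lo + j, by omega, rfl⟩
  exact fun w hw' => fix Dt.poly l hw (ex_inj e)
    ⟨ordConnected_univ, strictMono_id.strictMonoOn _,
      fun t i ht a b _ _ => (nx_spec Dt.poly ht a b).1⟩ rfl (Dt.tu hx) r
    ⟨hx, fun j _ => ⟨trivial, by rw [zero_add]; rfl⟩⟩ w (hW.2 w hw').1 (hW.2 w hw').2

theorem pos {T a0 x : ℕ} {A : Set R.C} (c : Ce S R T x a0 (· ∈ A))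
    {Φ : Flag R.C} {φ : Flag S.C} (p : Is R.n Φ (R.fc x)) (q : Is S.n φ (S.fc a0)) :
    ∃ e : A ≃o S.C, ∀ u, u.1 ∈ Φ ↔ e u ∈ φ := by
  obtain ⟨e, he⟩ := iso_of (kk S R T x) A c.1 c.2.1
  refine ⟨e, fun u => ?_⟩
  obtain ⟨a, rfl⟩ := e.symm.surjective u
  rw [he, e.apply_symm_apply, p, q]
  exact c.2.2 a
end ra

structure Ra (P Q R : Dt) (a0 b0 TP TQ : ℕ) (WP WQ : List (List ℕ)) : Prop where
  wp : Wd P WP a0
  wq : Wd Q WQ b0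
  eq : ∀ x < R.m, Fx R 0 WP x ↔ Fx R 1 WQ x
  cp : ∀ x < R.m, Fx R 0 WP x → Ce P R TP x a0 fun u => u = R.fc x 4 ∨ R.tb u (R.fc x 4) = true
  cq : ∀ x < R.m, Fx R 0 WP x → Ce Q R TQ x b0 fun u => R.fc x 1 = u ∨ R.tb (R.fc x 1) u = true
  fa : ∀ F, R.rk F = 3 → ∃ x < R.m, Fx R 0 WP x ∧ F = R.fc x 4
  ve : ∀ F, R.rk F = 0 → ∃ x < R.m, Fx R 0 WP x ∧ F = R.fc x 1

theorem Ra.main {P Q R : Dt} [P.Ok] [Q.Ok] [R.Ok] {a0 b0 TP TQ : ℕ} {WP WQ : List (List ℕ)}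
    (h : Ra P Q R a0 b0 TP TQ WP WQ) (p3 : P.n = 3) (q3 : Q.n = 3) (r4 : R.n = 4)
    {φ : Flag P.C} {ψ : Flag Q.C} (p : Is P.n φ (P.fc a0)) (q : Is Q.n ψ (Q.fc b0)) :
    Amalg (pt P 3 p3) (pt Q 3 q3) (pt R 4 r4) ∧
      Rooted (pt P 3 p3) (pt Q 3 q3) φ ψ (pt R 4 r4) := by
  refine ⟨⟨fun F hF => ?_, fun F hF => ?_⟩, fun Φ v F v1 f1 v2 f2 => ?_⟩
  · obtain ⟨x, x1, x2, rfl⟩ := h.fa F hF
    exact (iso_of (kk P R TP x) (Iic (R.fc x 4)) (h.cp x x1 x2).1 (h.cp x x1 x2).2.1).elim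
      fun e _ => ⟨e⟩
  · obtain ⟨x, x1, x2, rfl⟩ := h.ve F hF
    exact (iso_of (kk Q R TQ x) (Ici (R.fc x 1)) (h.cq x x1 x2).1 (h.cq x x1 x2).2.1).elim
      fun e _ => ⟨e⟩
  · obtain ⟨x, x1, x2⟩ := Dt.flag (d := R) Φ
    obtain rfl := x2.at (Dt.tu x1) v1 1 v2
    obtain rfl := x2.at (Dt.tu x1) f1 4 f2
    constructor
    · rintro ⟨e, he⟩
      exact pos (A := Ici (R.fc x 1)) (h.cq x x1 (neg h.wp x1 ordConnected_Iic (by omega)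
        (fun j hj => (Dt.tu x1).le (by omega) (by omega)) x2 p e he)) x2 q
    · rintro ⟨e, he⟩
      exact pos (A := Iic (R.fc x 4)) (h.cp x x1 ((h.eq x x1).2 (neg h.wq x1 ordConnected_Ici
        (by omega) (fun j hj => (Dt.tu x1).le (by omega) (by omega)) x2 q e he))) x2 p

def w3 : List ℕ := [2, 3, 2, 3, 2, 3]
def w4 : List ℕ := [2, 3, 2, 3, 2, 3, 2, 3]

theorem no {P R S : Dt} [P.Ok] [R.Ok] [S.Ok] (p3 : P.n = 3) (r4 : R.n = 4) (s4 : S.n = 4)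
    (Q : Pt 3) (u v : ℕ → List ℕ) (h1 : ∀ a < P.m, w3.foldl P.r a = a ∨ w4.foldl P.r a = a)
    (h2 : ∀ x < R.m, (∀ i ∈ u x, 1 ≤ i ∧ i ≤ 4) ∧ (u x).foldl R.r x = 0)
    (h3 : ∀ y < S.m, (∀ i ∈ v y, 1 ≤ i ∧ i ≤ 4) ∧ ∀ w ∈ [w3, w4],
      ¬ (w.foldl R.r ((v y).foldl R.r 0) = (v y).foldl R.r 0 ∧
        w.foldl S.r ((v y).foldl S.r y) = (v y).foldl S.r y))
    (U : Pt 4) (a : Amalg (pt P 3 p3) Q U) : ¬ (Covers U (pt R 4 r4) ∧ Covers U (pt S 4 s4)) := by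
  rintro ⟨⟨f, -, f1, f2, f3⟩, g, -, g1, g2, g3⟩
  have lf := cov_loc (d := R) U.poly f f1 f2 f3
  have lg := cov_loc (d := S) U.poly g g1 g2 g3
  have mv : ∀ (w : List ℕ) t x y, (∀ i ∈ w, 1 ≤ i ∧ i ≤ 4) → Tu 4 U.rk t → Rel R f univ 0 t x →
      Rel S g univ 0 t y → ∃ t, Tu 4 U.rk t ∧ Rel R f univ 0 t (w.foldl R.r x) ∧
        Rel S g univ 0 t (w.foldl S.r y) := fun w t x y q ht r s =>
    ⟨_, by simpa using act_tu U.poly w ht q, r.word U.poly lf (by omega) w ht (r4 ▸ q),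
      s.word U.poly lg (by omega) w ht (s4 ▸ q)⟩
  obtain ⟨t, ht, -⟩ := (pre_of U.poly).tu (Classical.arbitrary _)
  obtain ⟨x, r⟩ := ex_rel (lo := 0) lf (by omega) ht fun _ _ => trivial
  obtain ⟨y, s⟩ := ex_rel (lo := 0) lg (by omega) ht fun _ _ => trivial
  obtain ⟨t, ht, r, s⟩ := mv (u x) t x y (h2 x r.1).1 ht r s
  rw [(h2 x ‹Rel R f univ 0 _ x›.1).2] at r
  obtain ⟨k1, k2⟩ := h3 _ s.1
  obtain ⟨t, ht, r, s⟩ := mv _ t _ _ k1 ht r s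
  obtain ⟨e⟩ := a.1 (t 4) (ht.2 4 (by omega))
  have l := ex_loc (d := P) U.poly ordConnected_Iic e
  obtain ⟨c, rc⟩ := ex_rel (lo := 0) l (by omega) ht fun j hj => ht.le (by omega) (by omega)
  have z : ∀ w ∈ [w3, w4], w.foldl P.r c ≠ c := fun w hw q => by
    have b : ∀ i ∈ w, 1 ≤ i ∧ i ≤ P.n := by
      rw [p3]; clear q; revert w; decide
    have e1 := fix U.poly l (by omega) (ex_inj e) lf r4 ht rc r w b q
    have e2 := fix U.poly l (by omega) (ex_inj e) lg s4 ht rc s w b q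
    simp only [zero_add, List.map_id'] at e1 e2
    exact k2 w hw ⟨e1, e2⟩
  exact (h1 c rc.1).elim (z _ (by simp)) (z _ (by simp))

end Pool.Agent.H.MP_993768_co
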